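import Mathlib
import Pool.Agent.Helper92.ABC.Defs
import Pool.Agent.Helper4.ABC.Sizes

set_option autoImplicit false

/-!
# From boxes to the number of triples (piece ABC-FIN of the project of helper92)
-/

namespace Pool.Agent.Helper92.ABC

open Finset

/-- The condition on a triple with bounded radical, given by `(a, b)`. -/
def IsTr (l : ℝ) (t : ℕ × ℕ) : Prop :=
  1 ≤ t.1 ∧ 1 ≤ t.2 ∧ t.1.Coprime t.2 ∧
    ((∏ p ∈ (t.1 * t.2 * (t.1 + t.2)).primeFactors, p : ℕ) : ℝ) ≤ ((t.1 + t.2 : ℕ) : ℝ) ^ l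

/-- The triples with sum in `(Y, X]`. -/
noncomputable def TS (l : ℝ) (Y X : ℕ) : Finset (ℕ × ℕ) := by
  classical
  exact (Finset.Icc 1 X ×ˢ Finset.Icc 1 X).filter (fun t : ℕ × ℕ =>
    IsTr l t ∧ Y < t.1 + t.2 ∧ t.1 + t.2 ≤ X)

lemma mem_TS {l : ℝ} {Y X : ℕ} {t : ℕ × ℕ} :
    t ∈ TS l Y X ↔ IsTr l t ∧ Y < t.1 + t.2 ∧ t.1 + t.2 ≤ X := by
  classical
  unfold TS
  rw [Finset.mem_filter, Finset.mem_product, Finset.mem_Icc, Finset.mem_Icc]
  constructor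
  · rintro ⟨_, h⟩
    exact h
  · rintro ⟨h1, h2, h3⟩
    refine ⟨⟨⟨h1.1, by omega⟩, ⟨h1.2.1, by omega⟩⟩, h1, h2, h3⟩

open scoped Classical in
/-- The ordered triples with sum in `(Y, X]`. -/
noncomputable def TO (l : ℝ) (Y X : ℕ) : Finset (ℕ × ℕ) := (TS l Y X).filter (fun t => t.1 ≤ t.2)

lemma mem_TO {l : ℝ} {Y X : ℕ} {t : ℕ × ℕ} :
    t ∈ TO l Y X ↔ t ∈ TS l Y X ∧ t.1 ≤ t.2 := by
  unfold TO
  rw [Finset.mem_filter]

lemma IsTr.swap {l : ℝ} {t : ℕ × ℕ} (h : IsTr l t) : IsTr l t.swap := by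
  refine ⟨h.2.1, h.1, h.2.2.1.symm, ?_⟩
  have h1 := h.2.2.2
  simp only [Prod.fst_swap, Prod.snd_swap]
  rw [mul_comm t.2 t.1, add_comm t.2 t.1]
  exact h1

lemma card_TS_le (l : ℝ) (Y X : ℕ) : (TS l Y X).card ≤ 2 * (TO l Y X).card := by
  classical
  have h1 : TS l Y X ⊆ TO l Y X ∪ (TO l Y X).image Prod.swap := by
    intro t ht
    rw [Finset.mem_union, Finset.mem_image]
    rcases le_total t.1 t.2 with h | h
    · exact Or.inl (mem_TO.2 ⟨ht, h⟩)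
    · refine Or.inr ⟨t.swap, mem_TO.2 ⟨?_, h⟩, Prod.swap_swap t⟩
      rw [mem_TS] at ht ⊢
      simp only [Prod.fst_swap, Prod.snd_swap]
      exact ⟨ht.1.swap, by omega, by omega⟩
  calc (TS l Y X).card ≤ (TO l Y X ∪ (TO l Y X).image Prod.swap).card := Finset.card_le_card h1
    _ ≤ (TO l Y X).card + ((TO l Y X).image Prod.swap).card := Finset.card_union_le _ _
    _ ≤ (TO l Y X).card + (TO l Y X).card := Nat.add_le_add_left Finset.card_image_le _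
    _ = 2 * (TO l Y X).card := by ring

lemma TO_card_le_sq (l : ℝ) (Y X : ℕ) : (TO l Y X).card ≤ X ^ 2 := by
  classical
  have h1 : TO l Y X ⊆ Finset.Icc 1 X ×ˢ Finset.Icc 1 X := by
    intro t ht
    have h2 := (mem_TO.1 ht).1
    unfold TS at h2
    exact (Finset.mem_filter.1 h2).1
  refine (Finset.card_le_card h1).trans ?_
  rw [Finset.card_product, Nat.card_Icc]
  simp [sq]

/-- the levels given by a finite code -/
def lev {Q : ℕ} (κ : Fin 3 → Fin 7 → Fin (Q + 1)) (n : Fin 3) (i : ℕ) : ℕ :=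
  if h : i < 7 then (κ n ⟨i, h⟩ : ℕ) else 0

lemma rc_congr {k k' : ℕ → ℕ} (h : ∀ i ∈ Finset.Icc 1 6, k i = k' i) :
    rc 1 full k = rc 1 full k' := by
  unfold rc
  congr 1
  · refine Finset.sum_congr rfl fun i hi => ?_
    rw [h i (by simp only [full, Finset.mem_Icc] at hi ⊢; omega)]
  · rw [h 6 (by simp)]

lemma le_rc (k : ℕ → ℕ) {i : ℕ} (hi : i ∈ Finset.Icc 1 6) : k i ≤ rc 1 full k := by
  have h5 : (5 : ℕ) ∈ full := by simp [full]
  unfold rc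
  rw [if_pos h5]
  rw [Finset.mem_Icc] at hi
  by_cases h6 : i = 6
  · subst h6
    omega
  · have h1 : i ∈ full := by
      simp only [full, Finset.mem_Icc]
      omega
    have h2 : (i / 1) * k i ≤ ∑ j ∈ full, (j / 1) * k j :=
      Finset.single_le_sum (f := fun j => (j / 1) * k j) (fun _ _ => Nat.zero_le _) h1
    have h3 : k i ≤ (i / 1) * k i := by
      rw [Nat.div_one]
      exact Nat.le_mul_of_pos_left _ (by omega)
    omega

lemma radn_mul {a b : ℕ} (ha : a ≠ 0) (hb : b ≠ 0) (h : a.Coprime b) :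
    radn (a * b) = radn a * radn b := by
  unfold radn
  rw [Nat.primeFactors_mul ha hb, Finset.prod_union h.disjoint_primeFactors]

/-- the sum of all the levels is bounded by the radical -/
lemma levels_le {Z Q W : ℕ} {l : ℝ} (hZ : 2 ≤ Z) (hl : 0 ≤ l) (hW : l * Q ≤ W) {t : ℕ × ℕ}
    (ht : IsTr l t) (hc : t.1 + t.2 ≤ Z ^ Q) :
    ∑ n, ∑ i ∈ full, Nat.log Z (coord (num t n) i) ≤ W := by
  obtain ⟨h1, h2, h3, h4⟩ := ht
  have hc1 : t.1.Coprime (t.1 + t.2) := by simpa using h3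
  have hc2 : t.2.Coprime (t.1 + t.2) := by simpa using h3.symm
  have hr : radn (t.1 * t.2 * (t.1 + t.2)) = radn t.1 * radn t.2 * radn (t.1 + t.2) := by
    rw [radn_mul (by positivity) (by omega) (Nat.Coprime.mul_left hc1 hc2),
      radn_mul (by omega) (by omega) h3]
  have hlow : Z ^ (∑ n, ∑ i ∈ full, Nat.log Z (coord (num t n) i)) ≤
      radn (t.1 * t.2 * (t.1 + t.2)) := by
    rw [hr, Fin.sum_univ_three, pow_add, pow_add]
    exact Nat.mul_le_mul (Nat.mul_le_mul (radn_lower Z hZ _ (by simp only [num]; simp; omega))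
      (radn_lower Z hZ _ (by simp only [num]; simp; omega)))
      (radn_lower Z hZ _ (by simp only [num]; simp; omega))
  have hZ1 : (1 : ℝ) < Z := by exact_mod_cast (by omega : 1 < Z)
  have hup : ((radn (t.1 * t.2 * (t.1 + t.2)) : ℕ) : ℝ) ≤ (Z : ℝ) ^ (W : ℝ) := by
    calc ((radn (t.1 * t.2 * (t.1 + t.2)) : ℕ) : ℝ) ≤ ((t.1 + t.2 : ℕ) : ℝ) ^ l := h4
      _ ≤ ((Z ^ Q : ℕ) : ℝ) ^ l :=
        Real.rpow_le_rpow (Nat.cast_nonneg _) (by exact_mod_cast hc) hl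
      _ = (Z : ℝ) ^ (l * Q) := by
        rw [Nat.cast_pow, ← Real.rpow_natCast, ← Real.rpow_mul (Nat.cast_nonneg _), mul_comm]
      _ ≤ (Z : ℝ) ^ (W : ℝ) := Real.rpow_le_rpow_of_exponent_le hZ1.le hW
  rw [Real.rpow_natCast] at hup
  have h5 : Z ^ (∑ n, ∑ i ∈ full, Nat.log Z (coord (num t n) i)) ≤ Z ^ W := by
    refine hlow.trans ?_
    exact_mod_cast hup
  exact (Nat.pow_le_pow_iff_right (by omega)).1 h5

/-- the sizes of the three numbers -/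
lemma size_le {Z Q : ℕ} (hZ : 2 ≤ Z) {n : ℕ} (hn : n ≠ 0) (h : n ≤ Z ^ Q) :
    rc 1 full (fun i => Nat.log Z (coord n i)) ≤ Q :=
  (Nat.pow_le_pow_iff_right (by omega : 1 < Z)).1 ((size_lower Z hZ n hn).trans h)

lemma size_ge {Z Q : ℕ} (hZ : 2 ≤ Z) {n : ℕ} (hn : n ≠ 0) (h : Z ^ (Q - 1) < n) :
    Q ≤ rc 1 full (fun i => Nat.log Z (coord n i)) + 20 := by
  have h1 := h.trans_le (size_upper Z hZ n hn)
  have h2 := (Nat.pow_lt_pow_iff_right (by omega : 1 < Z)).1 h1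
  omega

open scoped Classical in
/-- the admissible codes -/
noncomputable def codes (Q W : ℕ) : Finset (Fin 3 → Fin 7 → Fin (Q + 1)) :=
  Finset.univ.filter (fun κ => (∀ n, rc 1 full (lev κ n) ≤ Q) ∧ Q ≤ rc 1 full (lev κ 1) + 20 ∧
    Q ≤ rc 1 full (lev κ 2) + 20 ∧ ∑ n, ∑ i ∈ full, lev κ n i ≤ W)

lemma TO_subset {Z Q W X : ℕ} {l : ℝ} (hQ : 1 ≤ Q) (hl : 0 ≤ l) (hW : l * Q ≤ W)
    (hZ : 2 ^ (Q + 2) ≤ Z) (h1 : (Z - 1) ^ Q < X) (h2 : X ≤ Z ^ Q) :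
    TO l (X / 2) X ⊆ (codes Q W).biUnion (fun κ => Box Z Q (lev κ)) := by
  classical
  intro t ht
  obtain ⟨ht1, hle⟩ := mem_TO.1 ht
  obtain ⟨htr, hlow, hup⟩ := mem_TS.1 ht1
  have hZ2 : 2 ≤ Z := by
    have : 2 ^ 1 ≤ 2 ^ (Q + 2) := Nat.pow_le_pow_right (by norm_num) (by omega)
    omega
  have hpos : ∀ n, num t n ≠ 0 := by
    intro n
    have := htr.1
    have := htr.2.1
    fin_cases n <;> simp [num] <;> omega
  have hleX : ∀ n, num t n ≤ Z ^ Q := by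
    intro n
    refine le_trans ?_ h2
    fin_cases n <;> simp [num] <;> omega
  have hsz : ∀ n, rc 1 full (fun i => Nat.log Z (coord (num t n) i)) ≤ Q := fun n =>
    size_le hZ2 (hpos n) (hleX n)
  have hlev : ∀ n, ∀ i ∈ Finset.Icc 1 6, Nat.log Z (coord (num t n) i) < Q + 1 := fun n i hi =>
    Nat.lt_succ_of_le ((le_rc (fun i => Nat.log Z (coord (num t n) i)) hi).trans (hsz n))
  let κ : Fin 3 → Fin 7 → Fin (Q + 1) := fun n i =>
    if h : (i : ℕ) ∈ Finset.Icc 1 6 then ⟨Nat.log Z (coord (num t n) i), hlev n i h⟩ else 0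
  have hκ : ∀ n, ∀ i ∈ Finset.Icc 1 6, lev κ n i = Nat.log Z (coord (num t n) i) := by
    intro n i hi
    have hi7 : i < 7 := by
      rw [Finset.mem_Icc] at hi
      omega
    unfold lev
    rw [dif_pos hi7]
    simp only [κ]
    rw [dif_pos hi]
  have hrc : ∀ n, rc 1 full (lev κ n) = rc 1 full (fun i => Nat.log Z (coord (num t n) i)) :=
    fun n => rc_congr (hκ n)
  -- the lower bound for `b` and `c`
  have hbig : ∀ m : ℕ, t.1 + t.2 ≤ 2 * m → Z ^ (Q - 1) < m := by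
    intro m hm
    have h3 : X < 4 * m := by omega
    have h4 : Z ^ Q ≤ 2 ^ Q * (Z - 1) ^ Q := by
      rw [← mul_pow]
      exact Nat.pow_le_pow_left (by omega) _
    have h5 : Z ^ Q < 2 ^ (Q + 2) * m := by
      calc Z ^ Q ≤ 2 ^ Q * (Z - 1) ^ Q := h4
        _ < 2 ^ Q * (4 * m) := by
          refine Nat.mul_lt_mul_of_pos_left (h1.trans h3) (by positivity)
        _ = 2 ^ (Q + 2) * m := by ring
    have h6 : Z ^ Q = Z * Z ^ (Q - 1) := by
      rw [← pow_succ']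
      congr 1
      omega
    have h7 : Z * Z ^ (Q - 1) < Z * m := by
      rw [← h6]
      exact h5.trans_le (Nat.mul_le_mul_right _ hZ)
    exact Nat.lt_of_mul_lt_mul_left h7
  rw [Finset.mem_biUnion]
  refine ⟨κ, ?_, ?_⟩
  · unfold codes
    rw [Finset.mem_filter]
    refine ⟨Finset.mem_univ _, fun n => (hrc n).le.trans (hsz n), ?_, ?_, ?_⟩
    · rw [hrc]
      refine size_ge hZ2 (hpos 1) (hbig _ ?_)
      simp [num]
      omega
    · rw [hrc]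
      refine size_ge hZ2 (hpos 2) (hbig _ ?_)
      simp [num]
      omega
    · have h8 : ∑ n, ∑ i ∈ full, lev κ n i =
          ∑ n, ∑ i ∈ full, Nat.log Z (coord (num t n) i) :=
        Finset.sum_congr rfl fun n _ => Finset.sum_congr rfl fun i hi => hκ n i (by
          simp only [full, Finset.mem_Icc] at hi ⊢
          omega)
      rw [h8]
      exact levels_le hZ2 hl hW htr (hup.trans h2)
  · unfold Box
    have ha := htr.1
    have hb := htr.2.1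
    simp only [Finset.mem_filter, Finset.mem_product, Finset.mem_Icc]
    refine ⟨⟨⟨ha, by omega⟩, ⟨hb, by omega⟩⟩, htr.2.2.1, by omega, ?_⟩
    intro n i hi
    exact (hκ n i (Finset.mem_Icc.2 hi)).symm

/-- the bound for one dyadic block -/
lemma block_bound (Q W : ℕ) (hQ : 1 ≤ Q) (θ l : ℝ) (hθ : 0 < θ) (hl : 0 ≤ l) (hW : l * Q ≤ W)
    (h : ∃ C : ℝ, ∀ (Z : ℕ) (k : Fin 3 → ℕ → ℕ), 2 ≤ Z →
      (∀ n, rc 1 full (k n) ≤ Q) → Q ≤ rc 1 full (k 1) + 20 → Q ≤ rc 1 full (k 2) + 20 →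
      ∑ n, ∑ i ∈ full, k n i ≤ W →
      ((Box Z Q k).card : ℝ) ≤ C * (Z : ℝ) ^ (θ * Q)) :
    ∃ C : ℝ, 0 ≤ C ∧ ∀ X : ℕ, ((TS l (X / 2) X).card : ℝ) ≤ C * (X : ℝ) ^ θ := by
  classical
  obtain ⟨C, hC⟩ := h
  let B : ℝ := ((2 ^ (Q + 2)) ^ Q : ℕ)
  let A : ℝ := Fintype.card (Fin 3 → Fin 7 → Fin (Q + 1))
  let D : ℝ := 2 * (B ^ 2 + A * (|C| * (2 : ℝ) ^ (θ * Q)))
  have hA : 0 ≤ A := Nat.cast_nonneg _
  have hB : 0 ≤ B := Nat.cast_nonneg _
  have h2p : (0 : ℝ) < (2 : ℝ) ^ (θ * Q) := Real.rpow_pos_of_pos two_pos _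
  have hD2 : 0 ≤ A * (|C| * (2 : ℝ) ^ (θ * Q)) :=
    mul_nonneg hA (mul_nonneg (abs_nonneg _) h2p.le)
  have hD : 0 ≤ D := by positivity
  refine ⟨D, hD, fun X => ?_⟩
  rcases Nat.eq_zero_or_pos X with rfl | hX
  · have h1 : TS l (0 / 2) 0 = ∅ := by
      rw [Finset.eq_empty_iff_forall_notMem]
      intro t ht
      have h2 := mem_TS.1 ht
      have := h2.1.1
      omega
    rw [h1, Finset.card_empty, Nat.cast_zero, Real.zero_rpow hθ.ne', mul_zero]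
  have hX1 : (1 : ℝ) ≤ (X : ℝ) ^ θ := Real.one_le_rpow (by exact_mod_cast hX) hθ.le
  have hcard : ((TS l (X / 2) X).card : ℝ) ≤ 2 * ((TO l (X / 2) X).card : ℝ) := by
    exact_mod_cast card_TS_le l (X / 2) X
  suffices hs : ((TO l (X / 2) X).card : ℝ) ≤
      (B ^ 2 + A * (|C| * (2 : ℝ) ^ (θ * Q))) * (X : ℝ) ^ θ by
    calc ((TS l (X / 2) X).card : ℝ) ≤ 2 * ((TO l (X / 2) X).card : ℝ) := hcard
      _ ≤ 2 * ((B ^ 2 + A * (|C| * (2 : ℝ) ^ (θ * Q))) * (X : ℝ) ^ θ) := by linarith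
      _ = D * (X : ℝ) ^ θ := by
        simp only [D]
        ring
  by_cases hXs : X ≤ (2 ^ (Q + 2)) ^ Q
  · have h1 : ((TO l (X / 2) X).card : ℝ) ≤ (X : ℝ) ^ 2 := by
      exact_mod_cast TO_card_le_sq l (X / 2) X
    have h2 : (X : ℝ) ≤ B := by
      simp only [B]
      exact_mod_cast hXs
    have h3 : (X : ℝ) ^ 2 ≤ B ^ 2 := by gcongr
    have h4 : B ^ 2 ≤ B ^ 2 + A * (|C| * (2 : ℝ) ^ (θ * Q)) := by linarith
    calc ((TO l (X / 2) X).card : ℝ) ≤ B ^ 2 + A * (|C| * (2 : ℝ) ^ (θ * Q)) := by linarith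
      _ ≤ (B ^ 2 + A * (|C| * (2 : ℝ) ^ (θ * Q))) * (X : ℝ) ^ θ :=
        le_mul_of_one_le_right (by positivity) hX1
  · -- the base
    have hex : ∃ Z : ℕ, X ≤ Z ^ Q := ⟨X, Nat.le_self_pow (by omega) X⟩
    let Z := Nat.find hex
    have hZs : X ≤ Z ^ Q := Nat.find_spec hex
    have hZbig : 2 ^ (Q + 2) ≤ Z := by
      by_contra hlt
      push Not at hlt
      have h1 : Z ^ Q ≤ (2 ^ (Q + 2)) ^ Q := Nat.pow_le_pow_left hlt.le _
      exact hXs (hZs.trans h1)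
    have hZ2 : 2 ≤ Z := by
      have : 2 ^ 1 ≤ 2 ^ (Q + 2) := Nat.pow_le_pow_right (by norm_num) (by omega)
      omega
    have hZ1 : (Z - 1) ^ Q < X := by
      have h1 := Nat.find_min hex (m := Z - 1) (by
        show Z - 1 < Z
        omega)
      omega
    have hsub := TO_subset hQ hl hW hZbig hZ1 hZs
    have hcodes : ∀ κ ∈ codes Q W, ((Box Z Q (lev κ)).card : ℝ) ≤ |C| * (Z : ℝ) ^ (θ * Q) := by
      intro κ hκ
      unfold codes at hκ
      rw [Finset.mem_filter] at hκ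
      obtain ⟨_, h1, h2, h3, h4⟩ := hκ
      refine (hC Z (lev κ) hZ2 h1 h2 h3 h4).trans ?_
      exact mul_le_mul_of_nonneg_right (le_abs_self C) (Real.rpow_nonneg (Nat.cast_nonneg _) _)
    have hZr : (Z : ℝ) ^ (θ * Q) ≤ (2 : ℝ) ^ (θ * Q) * (X : ℝ) ^ θ := by
      have h1 : (Z : ℝ) ^ Q ≤ 2 ^ Q * (X : ℝ) := by
        have h2 : Z ^ Q ≤ 2 ^ Q * X := by
          calc Z ^ Q ≤ (2 * (Z - 1)) ^ Q := Nat.pow_le_pow_left (by omega) _
            _ = 2 ^ Q * (Z - 1) ^ Q := by rw [mul_pow]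
            _ ≤ 2 ^ Q * X := Nat.mul_le_mul_left _ hZ1.le
        exact_mod_cast h2
      calc (Z : ℝ) ^ (θ * Q) = ((Z : ℝ) ^ Q) ^ θ := by
            rw [← Real.rpow_natCast, ← Real.rpow_mul (Nat.cast_nonneg _), mul_comm]
        _ ≤ (2 ^ Q * (X : ℝ)) ^ θ := Real.rpow_le_rpow (by positivity) h1 hθ.le
        _ = (2 : ℝ) ^ (θ * Q) * (X : ℝ) ^ θ := by
          rw [Real.mul_rpow (by positivity) (by positivity), ← Real.rpow_natCast,
            ← Real.rpow_mul (by norm_num), mul_comm (Q : ℝ) θ]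
    have h5 : ((TO l (X / 2) X).card : ℝ) ≤ ∑ κ ∈ codes Q W, ((Box Z Q (lev κ)).card : ℝ) := by
      have h6 : (TO l (X / 2) X).card ≤ ∑ κ ∈ codes Q W, (Box Z Q (lev κ)).card :=
        (Finset.card_le_card hsub).trans Finset.card_biUnion_le
      exact_mod_cast h6
    have h7 : ∑ κ ∈ codes Q W, ((Box Z Q (lev κ)).card : ℝ) ≤
        A * (|C| * (Z : ℝ) ^ (θ * Q)) := by
      refine (Finset.sum_le_card_nsmul _ _ _ hcodes).trans ?_
      rw [nsmul_eq_mul]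
      refine mul_le_mul_of_nonneg_right ?_ (by positivity)
      simp only [A]
      exact_mod_cast Finset.card_le_univ _
    calc ((TO l (X / 2) X).card : ℝ) ≤ A * (|C| * (Z : ℝ) ^ (θ * Q)) := h5.trans h7
      _ ≤ A * (|C| * ((2 : ℝ) ^ (θ * Q) * (X : ℝ) ^ θ)) := by gcongr
      _ = (A * (|C| * (2 : ℝ) ^ (θ * Q))) * (X : ℝ) ^ θ := by ring
      _ ≤ (B ^ 2 + A * (|C| * (2 : ℝ) ^ (θ * Q))) * (X : ℝ) ^ θ := by
        refine mul_le_mul_of_nonneg_right ?_ (by positivity)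
        linarith [sq_nonneg B]

lemma TS_split (l : ℝ) (X : ℕ) :
    (TS l 0 X).card ≤ (TS l 0 (X / 2)).card + (TS l (X / 2) X).card := by
  classical
  have h1 : TS l 0 X ⊆ TS l 0 (X / 2) ∪ TS l (X / 2) X := by
    intro t ht
    rw [Finset.mem_union]
    have h2 := mem_TS.1 ht
    by_cases h3 : t.1 + t.2 ≤ X / 2
    · exact Or.inl (mem_TS.2 ⟨h2.1, h2.2.1, h3⟩)
    · exact Or.inr (mem_TS.2 ⟨h2.1, by omega, h2.2.2⟩)
  exact (Finset.card_le_card h1).trans (Finset.card_union_le _ _)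

/-- ABC-FIN: from a bound for every admissible box to the bound for the number of triples. -/
theorem final_of_box (Q W : ℕ) (hQ : 100 ≤ Q) (θ l : ℝ) (hθ : 0 < θ) (hl : 0 ≤ l) (hW : l * Q ≤ W)
    (h : ∃ C : ℝ, ∀ (Z : ℕ) (k : Fin 3 → ℕ → ℕ), 2 ≤ Z →
      (∀ n, rc 1 full (k n) ≤ Q) → Q ≤ rc 1 full (k 1) + 20 → Q ≤ rc 1 full (k 2) + 20 →
      ∑ n, ∑ i ∈ full, k n i ≤ W →
      ((Box Z Q k).card : ℝ) ≤ C * (Z : ℝ) ^ (θ * Q)) :
    ∃ C : ℝ, ∀ X : ℕ,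
      (((Finset.Icc 1 X ×ˢ Finset.Icc 1 X).filter (fun t : ℕ × ℕ =>
        t.1.Coprime t.2 ∧ t.1 + t.2 ≤ X ∧
          ((∏ p ∈ (t.1 * t.2 * (t.1 + t.2)).primeFactors, p : ℕ) : ℝ) ≤
            ((t.1 + t.2 : ℕ) : ℝ) ^ l)).card : ℝ) ≤ C * (X : ℝ) ^ θ := by
  obtain ⟨D, hD, hblock⟩ := block_bound Q W (by omega) θ l hθ hl hW h
  have h2θ : (1 : ℝ) < (2 : ℝ) ^ θ := Real.one_lt_rpow one_lt_two hθ
  -- `C` with `C / 2 ^ θ + D = C`
  let C : ℝ := D * (2 : ℝ) ^ θ / ((2 : ℝ) ^ θ - 1)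
  have hden : (0 : ℝ) < (2 : ℝ) ^ θ - 1 := by linarith
  have hC0 : 0 ≤ C := div_nonneg (mul_nonneg hD (by positivity)) hden.le
  have hCeq : C * ((2 : ℝ) ^ θ)⁻¹ + D = C := by
    have h1 : (2 : ℝ) ^ θ ≠ 0 := by positivity
    simp only [C]
    field_simp
    ring
  have hmain : ∀ X : ℕ, ((TS l 0 X).card : ℝ) ≤ C * (X : ℝ) ^ θ := by
    intro X
    induction X using Nat.strong_induction_on with
    | _ X ih =>
      rcases Nat.eq_zero_or_pos X with rfl | hX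
      · have h1 : TS l 0 0 = ∅ := by
          rw [Finset.eq_empty_iff_forall_notMem]
          intro t ht
          have h2 := mem_TS.1 ht
          have := h2.1.1
          omega
        rw [h1, Finset.card_empty, Nat.cast_zero, Real.zero_rpow hθ.ne', mul_zero]
      · have h1 := ih (X / 2) (by omega)
        have h2 := hblock X
        have h3 : ((TS l 0 X).card : ℝ) ≤
            ((TS l 0 (X / 2)).card : ℝ) + ((TS l (X / 2) X).card : ℝ) := by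
          exact_mod_cast TS_split l X
        have h4 : (((X / 2 : ℕ) : ℝ)) ^ θ ≤ ((2 : ℝ) ^ θ)⁻¹ * (X : ℝ) ^ θ := by
          have h5 : ((X / 2 : ℕ) : ℝ) ≤ (X : ℝ) / 2 := Nat.cast_div_le
          calc (((X / 2 : ℕ) : ℝ)) ^ θ ≤ ((X : ℝ) / 2) ^ θ :=
                Real.rpow_le_rpow (Nat.cast_nonneg _) h5 hθ.le
            _ = ((2 : ℝ) ^ θ)⁻¹ * (X : ℝ) ^ θ := by
              rw [Real.div_rpow (Nat.cast_nonneg _) (by norm_num)]
              ring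
        calc ((TS l 0 X).card : ℝ) ≤ C * (((X / 2 : ℕ) : ℝ)) ^ θ + D * (X : ℝ) ^ θ := by
              linarith
          _ ≤ C * (((2 : ℝ) ^ θ)⁻¹ * (X : ℝ) ^ θ) + D * (X : ℝ) ^ θ := by
            have := mul_le_mul_of_nonneg_left h4 hC0
            linarith
          _ = (C * ((2 : ℝ) ^ θ)⁻¹ + D) * (X : ℝ) ^ θ := by ring
          _ = C * (X : ℝ) ^ θ := by rw [hCeq]
  refine ⟨C, fun X => ?_⟩
  refine le_trans ?_ (hmain X)
  have hsub : ((Finset.Icc 1 X ×ˢ Finset.Icc 1 X).filter (fun t : ℕ × ℕ =>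
        t.1.Coprime t.2 ∧ t.1 + t.2 ≤ X ∧
          ((∏ p ∈ (t.1 * t.2 * (t.1 + t.2)).primeFactors, p : ℕ) : ℝ) ≤
            ((t.1 + t.2 : ℕ) : ℝ) ^ l)) ⊆ TS l 0 X := by
    intro t ht
    simp only [Finset.mem_filter, Finset.mem_product, Finset.mem_Icc] at ht
    obtain ⟨⟨⟨h1, _⟩, h2, _⟩, h3, h4, h5⟩ := ht
    exact mem_TS.2 ⟨⟨h1, h2, h3, h5⟩, by omega, h4⟩
  exact_mod_cast Finset.card_le_card hsub

end Pool.Agent.Helper92.ABC
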