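import Mathlib
import Pool.Agent.Helper11.ABC.Final

set_option autoImplicit false

/-!
# From boxes to the number of triples, with an additional condition

Variant of `Pool.Agent.Helper11.ABC.Final` for an arbitrary symmetric condition `P` on the pairs
`(a, b)` which implies a condition `L` on the levels; `final_of_box_small` is the case of triples
one of whose entries has a small radical.
-/

namespace Pool.Agent.Helper11.ABCSmall

open Finset Pool.Agent.Helper92.ABC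

/-- the basic conditions on a pair -/
def IsTrP (P : ℕ × ℕ → Prop) (t : ℕ × ℕ) : Prop :=
  1 ≤ t.1 ∧ 1 ≤ t.2 ∧ t.1.Coprime t.2 ∧ P t

/-- The triples with sum in `(Y, X]`. -/
noncomputable def TS (P : ℕ × ℕ → Prop) (Y X : ℕ) : Finset (ℕ × ℕ) := by
  classical
  exact (Finset.Icc 1 X ×ˢ Finset.Icc 1 X).filter (fun t : ℕ × ℕ =>
    IsTrP P t ∧ Y < t.1 + t.2 ∧ t.1 + t.2 ≤ X)

lemma mem_TS {P : ℕ × ℕ → Prop} {Y X : ℕ} {t : ℕ × ℕ} :
    t ∈ TS P Y X ↔ IsTrP P t ∧ Y < t.1 + t.2 ∧ t.1 + t.2 ≤ X := by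
  classical
  unfold TS
  rw [Finset.mem_filter, Finset.mem_product, Finset.mem_Icc, Finset.mem_Icc]
  constructor
  · rintro ⟨_, h⟩
    exact h
  · rintro ⟨h1, h2, h3⟩
    refine ⟨⟨⟨h1.1, by omega⟩, ⟨h1.2.1, by omega⟩⟩, h1, h2, h3⟩

open scoped Classical in
/-- The ordered triples with sum in `(Y, X]`. -/
noncomputable def TO (P : ℕ × ℕ → Prop) (Y X : ℕ) : Finset (ℕ × ℕ) :=
  (TS P Y X).filter (fun t => t.1 ≤ t.2)

lemma mem_TO {P : ℕ × ℕ → Prop} {Y X : ℕ} {t : ℕ × ℕ} :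
    t ∈ TO P Y X ↔ t ∈ TS P Y X ∧ t.1 ≤ t.2 := by
  unfold TO
  rw [Finset.mem_filter]

lemma card_TS_le (P : ℕ × ℕ → Prop) (hP : ∀ t, P t → P t.swap) (Y X : ℕ) :
    (TS P Y X).card ≤ 2 * (TO P Y X).card := by
  classical
  have h1 : TS P Y X ⊆ TO P Y X ∪ (TO P Y X).image Prod.swap := by
    intro t ht
    rw [Finset.mem_union, Finset.mem_image]
    rcases le_total t.1 t.2 with h | h
    · exact Or.inl (mem_TO.2 ⟨ht, h⟩)
    · refine Or.inr ⟨t.swap, mem_TO.2 ⟨?_, h⟩, Prod.swap_swap t⟩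
      rw [mem_TS] at ht ⊢
      simp only [Prod.fst_swap, Prod.snd_swap]
      exact ⟨⟨ht.1.2.1, ht.1.1, ht.1.2.2.1.symm, hP t ht.1.2.2.2⟩, by omega, by omega⟩
  calc (TS P Y X).card ≤ (TO P Y X ∪ (TO P Y X).image Prod.swap).card := Finset.card_le_card h1
    _ ≤ (TO P Y X).card + ((TO P Y X).image Prod.swap).card := Finset.card_union_le _ _
    _ ≤ (TO P Y X).card + (TO P Y X).card := Nat.add_le_add_left Finset.card_image_le _
    _ = 2 * (TO P Y X).card := by ring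

lemma TO_card_le_sq (P : ℕ × ℕ → Prop) (Y X : ℕ) : (TO P Y X).card ≤ X ^ 2 := by
  classical
  have h1 : TO P Y X ⊆ Finset.Icc 1 X ×ˢ Finset.Icc 1 X := by
    intro t ht
    have h2 := (mem_TO.1 ht).1
    unfold TS at h2
    exact (Finset.mem_filter.1 h2).1
  refine (Finset.card_le_card h1).trans ?_
  rw [Finset.card_product, Nat.card_Icc]
  simp [sq]

open scoped Classical in
/-- the admissible codes -/
noncomputable def codes (Q : ℕ) (L : (Fin 3 → ℕ → ℕ) → Prop) :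
    Finset (Fin 3 → Fin 7 → Fin (Q + 1)) :=
  Finset.univ.filter (fun κ => (∀ n, rc 1 full (lev κ n) ≤ Q) ∧ Q ≤ rc 1 full (lev κ 1) + 20 ∧
    Q ≤ rc 1 full (lev κ 2) + 20 ∧ L (lev κ))

/-- the condition `P` implies the condition `L` on the levels -/
def Implies (Q : ℕ) (P : ℕ × ℕ → Prop) (L : (Fin 3 → ℕ → ℕ) → Prop) : Prop :=
  ∀ (Z : ℕ) (t : ℕ × ℕ) (k : Fin 3 → ℕ → ℕ), 2 ^ (Q + 2) ≤ Z → 1 ≤ t.1 → t.1 ≤ t.2 →
    t.1.Coprime t.2 → t.1 + t.2 ≤ Z ^ Q → Z ^ (Q - 1) < t.2 → P t →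
    (∀ n, ∀ i ∈ Finset.Icc 1 6, k n i = Nat.log Z (coord (num t n) i)) → L k

lemma TO_subset {Z Q X : ℕ} {P : ℕ × ℕ → Prop} {L : (Fin 3 → ℕ → ℕ) → Prop} (hQ : 1 ≤ Q)
    (hL : Implies Q P L)
    (hZ : 2 ^ (Q + 2) ≤ Z) (h1 : (Z - 1) ^ Q < X) (h2 : X ≤ Z ^ Q) :
    TO P (X / 2) X ⊆ (codes Q L).biUnion (fun κ => Box Z Q (lev κ)) := by
  classical
  intro t ht
  obtain ⟨ht1, hle⟩ := mem_TO.1 ht
  obtain ⟨htr, hlow, hup⟩ := mem_TS.1 ht1
  have hZ2 : 2 ≤ Z := by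
    have : 2 ^ 1 ≤ 2 ^ (Q + 2) := Nat.pow_le_pow_right (by norm_num) (by omega)
    omega
  have hpos : ∀ n, num t n ≠ 0 := by
    intro n
    have := htr.1
    have := htr.2.1
    fin_cases n <;> simp [num] <;> omega
  have hleX : ∀ n, num t n ≤ Z ^ Q := by
    intro n
    refine le_trans ?_ h2
    fin_cases n <;> simp [num] <;> omega
  have hsz : ∀ n, rc 1 full (fun i => Nat.log Z (coord (num t n) i)) ≤ Q := fun n =>
    size_le hZ2 (hpos n) (hleX n)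
  have hlev : ∀ n, ∀ i ∈ Finset.Icc 1 6, Nat.log Z (coord (num t n) i) < Q + 1 := fun n i hi =>
    Nat.lt_succ_of_le ((le_rc (fun i => Nat.log Z (coord (num t n) i)) hi).trans (hsz n))
  let κ : Fin 3 → Fin 7 → Fin (Q + 1) := fun n i =>
    if h : (i : ℕ) ∈ Finset.Icc 1 6 then ⟨Nat.log Z (coord (num t n) i), hlev n i h⟩ else 0
  have hκ : ∀ n, ∀ i ∈ Finset.Icc 1 6, lev κ n i = Nat.log Z (coord (num t n) i) := by
    intro n i hi
    have hi7 : i < 7 := by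
      rw [Finset.mem_Icc] at hi
      omega
    unfold lev
    rw [dif_pos hi7]
    simp only [κ]
    rw [dif_pos hi]
  have hrc : ∀ n, rc 1 full (lev κ n) = rc 1 full (fun i => Nat.log Z (coord (num t n) i)) :=
    fun n => rc_congr (hκ n)
  -- the lower bound for `b` and `c`
  have hbig : ∀ m : ℕ, t.1 + t.2 ≤ 2 * m → Z ^ (Q - 1) < m := by
    intro m hm
    have h3 : X < 4 * m := by omega
    have h4 : Z ^ Q ≤ 2 ^ Q * (Z - 1) ^ Q := by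
      rw [← mul_pow]
      exact Nat.pow_le_pow_left (by omega) _
    have h5 : Z ^ Q < 2 ^ (Q + 2) * m := by
      calc Z ^ Q ≤ 2 ^ Q * (Z - 1) ^ Q := h4
        _ < 2 ^ Q * (4 * m) := by
          refine Nat.mul_lt_mul_of_pos_left (h1.trans h3) (by positivity)
        _ = 2 ^ (Q + 2) * m := by ring
    have h6 : Z ^ Q = Z * Z ^ (Q - 1) := by
      rw [← pow_succ']
      congr 1
      omega
    have h7 : Z * Z ^ (Q - 1) < Z * m := by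
      rw [← h6]
      exact h5.trans_le (Nat.mul_le_mul_right _ hZ)
    exact Nat.lt_of_mul_lt_mul_left h7
  rw [Finset.mem_biUnion]
  refine ⟨κ, ?_, ?_⟩
  · unfold codes
    rw [Finset.mem_filter]
    refine ⟨Finset.mem_univ _, fun n => (hrc n).le.trans (hsz n), ?_, ?_, ?_⟩
    · rw [hrc]
      refine size_ge hZ2 (hpos 1) (hbig _ ?_)
      simp [num]
      omega
    · rw [hrc]
      refine size_ge hZ2 (hpos 2) (hbig _ ?_)
      simp [num]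
      omega
    · exact hL Z t (lev κ) hZ htr.1 hle htr.2.2.1 (hup.trans h2) (hbig _ (by omega)) htr.2.2.2 hκ
  · unfold Box
    have ha := htr.1
    have hb := htr.2.1
    simp only [Finset.mem_filter, Finset.mem_product, Finset.mem_Icc]
    refine ⟨⟨⟨ha, by omega⟩, ⟨hb, by omega⟩⟩, htr.2.2.1, by omega, ?_⟩
    intro n i hi
    exact (hκ n i (Finset.mem_Icc.2 hi)).symm

/-- the constant of the bound for one dyadic block -/
noncomputable def blockConst (Q : ℕ) (θ₁ C : ℝ) : ℝ :=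
  2 * ((((2 ^ (Q + 2)) ^ Q : ℕ) : ℝ) ^ 2 +
    (Fintype.card (Fin 3 → Fin 7 → Fin (Q + 1)) : ℝ) * (|C| * (2 : ℝ) ^ (θ₁ * Q)))

lemma blockConst_nonneg (Q : ℕ) (θ₁ C : ℝ) : 0 ≤ blockConst Q θ₁ C := by
  unfold blockConst
  have h2p : (0 : ℝ) < (2 : ℝ) ^ (θ₁ * Q) := Real.rpow_pos_of_pos two_pos _
  have hA : (0 : ℝ) ≤ (Fintype.card (Fin 3 → Fin 7 → Fin (Q + 1)) : ℝ) := Nat.cast_nonneg _
  have hD2 := mul_nonneg hA (mul_nonneg (abs_nonneg C) h2p.le)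
  positivity

/-- the bound for one dyadic block -/
lemma block_bound (Q : ℕ) (hQ : 1 ≤ Q) (θ θ₁ : ℝ) (hθ : 0 < θ) (hθ₁ : θ ≤ θ₁) (C : ℝ)
    (P : ℕ × ℕ → Prop) (hP : ∀ t, P t → P t.swap) (L : (Fin 3 → ℕ → ℕ) → Prop)
    (hL : Implies Q P L)
    (hC : ∀ (Z : ℕ) (k : Fin 3 → ℕ → ℕ), 2 ≤ Z →
      (∀ n, rc 1 full (k n) ≤ Q) → Q ≤ rc 1 full (k 1) + 20 → Q ≤ rc 1 full (k 2) + 20 →
      L k → ((Box Z Q k).card : ℝ) ≤ C * (Z : ℝ) ^ (θ * Q)) (X : ℕ) :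
    ((TS P (X / 2) X).card : ℝ) ≤ blockConst Q θ₁ C * (X : ℝ) ^ θ := by
  classical
  let B : ℝ := ((2 ^ (Q + 2)) ^ Q : ℕ)
  let A : ℝ := Fintype.card (Fin 3 → Fin 7 → Fin (Q + 1))
  let D : ℝ := 2 * (B ^ 2 + A * (|C| * (2 : ℝ) ^ (θ₁ * Q)))
  have hDdef : blockConst Q θ₁ C = D := rfl
  rw [hDdef]
  have hA : 0 ≤ A := Nat.cast_nonneg _
  have hB : 0 ≤ B := Nat.cast_nonneg _
  have h2p : (0 : ℝ) < (2 : ℝ) ^ (θ₁ * Q) := Real.rpow_pos_of_pos two_pos _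
  have hD2 : 0 ≤ A * (|C| * (2 : ℝ) ^ (θ₁ * Q)) :=
    mul_nonneg hA (mul_nonneg (abs_nonneg _) h2p.le)
  have hD : 0 ≤ D := by positivity
  rcases Nat.eq_zero_or_pos X with rfl | hX
  · have h1 : TS P (0 / 2) 0 = ∅ := by
      rw [Finset.eq_empty_iff_forall_notMem]
      intro t ht
      have h2 := mem_TS.1 ht
      have := h2.1.1
      omega
    rw [h1, Finset.card_empty, Nat.cast_zero, Real.zero_rpow hθ.ne', mul_zero]
  have hX1 : (1 : ℝ) ≤ (X : ℝ) ^ θ := Real.one_le_rpow (by exact_mod_cast hX) hθ.le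
  have hcard : ((TS P (X / 2) X).card : ℝ) ≤ 2 * ((TO P (X / 2) X).card : ℝ) := by
    exact_mod_cast card_TS_le P hP (X / 2) X
  suffices hs : ((TO P (X / 2) X).card : ℝ) ≤
      (B ^ 2 + A * (|C| * (2 : ℝ) ^ (θ₁ * Q))) * (X : ℝ) ^ θ by
    calc ((TS P (X / 2) X).card : ℝ) ≤ 2 * ((TO P (X / 2) X).card : ℝ) := hcard
      _ ≤ 2 * ((B ^ 2 + A * (|C| * (2 : ℝ) ^ (θ₁ * Q))) * (X : ℝ) ^ θ) := by linarith
      _ = D * (X : ℝ) ^ θ := by
        simp only [D]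
        ring
  by_cases hXs : X ≤ (2 ^ (Q + 2)) ^ Q
  · have h1 : ((TO P (X / 2) X).card : ℝ) ≤ (X : ℝ) ^ 2 := by
      exact_mod_cast TO_card_le_sq P (X / 2) X
    have h2 : (X : ℝ) ≤ B := by
      simp only [B]
      exact_mod_cast hXs
    have h3 : (X : ℝ) ^ 2 ≤ B ^ 2 := by gcongr
    have h4 : B ^ 2 ≤ B ^ 2 + A * (|C| * (2 : ℝ) ^ (θ₁ * Q)) := by linarith
    calc ((TO P (X / 2) X).card : ℝ) ≤ B ^ 2 + A * (|C| * (2 : ℝ) ^ (θ₁ * Q)) := by linarith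
      _ ≤ (B ^ 2 + A * (|C| * (2 : ℝ) ^ (θ₁ * Q))) * (X : ℝ) ^ θ :=
        le_mul_of_one_le_right (by positivity) hX1
  · -- the base
    have hex : ∃ Z : ℕ, X ≤ Z ^ Q := ⟨X, Nat.le_self_pow (by omega) X⟩
    let Z := Nat.find hex
    have hZs : X ≤ Z ^ Q := Nat.find_spec hex
    have hZbig : 2 ^ (Q + 2) ≤ Z := by
      by_contra hlt
      push Not at hlt
      have h1 : Z ^ Q ≤ (2 ^ (Q + 2)) ^ Q := Nat.pow_le_pow_left hlt.le _
      exact hXs (hZs.trans h1)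
    have hZ2 : 2 ≤ Z := by
      have : 2 ^ 1 ≤ 2 ^ (Q + 2) := Nat.pow_le_pow_right (by norm_num) (by omega)
      omega
    have hZ1 : (Z - 1) ^ Q < X := by
      have h1 := Nat.find_min hex (m := Z - 1) (by
        show Z - 1 < Z
        omega)
      omega
    have hsub := TO_subset hQ hL hZbig hZ1 hZs
    have hcodes : ∀ κ ∈ codes Q L, ((Box Z Q (lev κ)).card : ℝ) ≤ |C| * (Z : ℝ) ^ (θ * Q) := by
      intro κ hκ
      unfold codes at hκ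
      rw [Finset.mem_filter] at hκ
      obtain ⟨_, h1, h2, h3, h4⟩ := hκ
      refine (hC Z (lev κ) hZ2 h1 h2 h3 h4).trans ?_
      exact mul_le_mul_of_nonneg_right (le_abs_self C) (Real.rpow_nonneg (Nat.cast_nonneg _) _)
    have hZr : (Z : ℝ) ^ (θ * Q) ≤ (2 : ℝ) ^ (θ₁ * Q) * (X : ℝ) ^ θ := by
      have h1 : (Z : ℝ) ^ Q ≤ 2 ^ Q * (X : ℝ) := by
        have h2 : Z ^ Q ≤ 2 ^ Q * X := by
          calc Z ^ Q ≤ (2 * (Z - 1)) ^ Q := Nat.pow_le_pow_left (by omega) _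
            _ = 2 ^ Q * (Z - 1) ^ Q := by rw [mul_pow]
            _ ≤ 2 ^ Q * X := Nat.mul_le_mul_left _ hZ1.le
        exact_mod_cast h2
      calc (Z : ℝ) ^ (θ * Q) = ((Z : ℝ) ^ Q) ^ θ := by
            rw [← Real.rpow_natCast, ← Real.rpow_mul (Nat.cast_nonneg _), mul_comm]
        _ ≤ (2 ^ Q * (X : ℝ)) ^ θ := Real.rpow_le_rpow (by positivity) h1 hθ.le
        _ = (2 : ℝ) ^ (θ * Q) * (X : ℝ) ^ θ := by
          rw [Real.mul_rpow (by positivity) (by positivity), ← Real.rpow_natCast,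
            ← Real.rpow_mul (by norm_num), mul_comm (Q : ℝ) θ]
        _ ≤ (2 : ℝ) ^ (θ₁ * Q) * (X : ℝ) ^ θ := by
          refine mul_le_mul_of_nonneg_right ?_ (by positivity)
          exact Real.rpow_le_rpow_of_exponent_le one_le_two
            (mul_le_mul_of_nonneg_right hθ₁ (Nat.cast_nonneg _))
    have h5 : ((TO P (X / 2) X).card : ℝ) ≤ ∑ κ ∈ codes Q L, ((Box Z Q (lev κ)).card : ℝ) := by
      have h6 : (TO P (X / 2) X).card ≤ ∑ κ ∈ codes Q L, (Box Z Q (lev κ)).card :=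
        (Finset.card_le_card hsub).trans Finset.card_biUnion_le
      exact_mod_cast h6
    have h7 : ∑ κ ∈ codes Q L, ((Box Z Q (lev κ)).card : ℝ) ≤
        A * (|C| * (Z : ℝ) ^ (θ * Q)) := by
      refine (Finset.sum_le_card_nsmul _ _ _ hcodes).trans ?_
      rw [nsmul_eq_mul]
      refine mul_le_mul_of_nonneg_right ?_ (by positivity)
      simp only [A]
      exact_mod_cast Finset.card_le_univ _
    calc ((TO P (X / 2) X).card : ℝ) ≤ A * (|C| * (Z : ℝ) ^ (θ * Q)) := h5.trans h7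
      _ ≤ A * (|C| * ((2 : ℝ) ^ (θ₁ * Q) * (X : ℝ) ^ θ)) := by gcongr
      _ = (A * (|C| * (2 : ℝ) ^ (θ₁ * Q))) * (X : ℝ) ^ θ := by ring
      _ ≤ (B ^ 2 + A * (|C| * (2 : ℝ) ^ (θ₁ * Q))) * (X : ℝ) ^ θ := by
        refine mul_le_mul_of_nonneg_right ?_ (by positivity)
        linarith [sq_nonneg B]

lemma TS_split (P : ℕ × ℕ → Prop) (X : ℕ) :
    (TS P 0 X).card ≤ (TS P 0 (X / 2)).card + (TS P (X / 2) X).card := by
  classical
  have h1 : TS P 0 X ⊆ TS P 0 (X / 2) ∪ TS P (X / 2) X := by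
    intro t ht
    rw [Finset.mem_union]
    have h2 := mem_TS.1 ht
    by_cases h3 : t.1 + t.2 ≤ X / 2
    · exact Or.inl (mem_TS.2 ⟨h2.1, h2.2.1, h3⟩)
    · exact Or.inr (mem_TS.2 ⟨h2.1, by omega, h2.2.2⟩)
  exact (Finset.card_le_card h1).trans (Finset.card_union_le _ _)

open scoped Classical in
/-- From a bound for every admissible box to the bound for the number of triples, for a symmetric
condition `P` on `(a, b)` which implies the condition `L` on the levels; uniform in the exponent,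
in `P` and in `L`. -/
theorem final_of_box_unif (Q : ℕ) (hQ : 1 ≤ Q) (θ₀ θ₁ : ℝ) (hθ₀ : 0 < θ₀) (C₀ : ℝ) :
    ∃ C : ℝ, ∀ θ : ℝ, θ₀ ≤ θ → θ ≤ θ₁ →
      ∀ (P : ℕ × ℕ → Prop) (L : (Fin 3 → ℕ → ℕ) → Prop), (∀ t, P t → P t.swap) →
      Implies Q P L →
      (∀ (Z : ℕ) (k : Fin 3 → ℕ → ℕ), 2 ≤ Z →
        (∀ n, rc 1 full (k n) ≤ Q) → Q ≤ rc 1 full (k 1) + 20 → Q ≤ rc 1 full (k 2) + 20 →
        L k → ((Box Z Q k).card : ℝ) ≤ C₀ * (Z : ℝ) ^ (θ * Q)) →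
      ∀ X : ℕ,
        (((Finset.Icc 1 X ×ˢ Finset.Icc 1 X).filter (fun t : ℕ × ℕ =>
          t.1.Coprime t.2 ∧ t.1 + t.2 ≤ X ∧ P t)).card : ℝ) ≤ C * (X : ℝ) ^ θ := by
  let D : ℝ := blockConst Q θ₁ C₀
  have hD : 0 ≤ D := blockConst_nonneg _ _ _
  have h2θ : (1 : ℝ) < (2 : ℝ) ^ θ₀ := Real.one_lt_rpow one_lt_two hθ₀
  -- `C` with `C / 2 ^ θ₀ + D = C`
  let C : ℝ := D * (2 : ℝ) ^ θ₀ / ((2 : ℝ) ^ θ₀ - 1)
  have hden : (0 : ℝ) < (2 : ℝ) ^ θ₀ - 1 := by linarith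
  have hC0 : 0 ≤ C := div_nonneg (mul_nonneg hD (by positivity)) hden.le
  have hCeq : C * ((2 : ℝ) ^ θ₀)⁻¹ + D = C := by
    have h1 : (2 : ℝ) ^ θ₀ ≠ 0 := by positivity
    simp only [C]
    field_simp
    ring
  refine ⟨C, fun θ hθ0 hθ1 P L hP hL h => ?_⟩
  have hθ : 0 < θ := hθ₀.trans_le hθ0
  have hblock := block_bound Q hQ θ θ₁ hθ hθ1 C₀ P hP L hL h
  have hinv : ((2 : ℝ) ^ θ)⁻¹ ≤ ((2 : ℝ) ^ θ₀)⁻¹ :=
    inv_anti₀ (by positivity) (Real.rpow_le_rpow_of_exponent_le one_le_two hθ0)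
  have hmain : ∀ X : ℕ, ((TS P 0 X).card : ℝ) ≤ C * (X : ℝ) ^ θ := by
    intro X
    induction X using Nat.strong_induction_on with
    | _ X ih =>
      rcases Nat.eq_zero_or_pos X with rfl | hX
      · have h1 : TS P 0 0 = ∅ := by
          rw [Finset.eq_empty_iff_forall_notMem]
          intro t ht
          have h2 := mem_TS.1 ht
          have := h2.1.1
          omega
        rw [h1, Finset.card_empty, Nat.cast_zero, Real.zero_rpow hθ.ne', mul_zero]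
      · have h1 := ih (X / 2) (by omega)
        have h2 : ((TS P (X / 2) X).card : ℝ) ≤ D * (X : ℝ) ^ θ := hblock X
        have h3 : ((TS P 0 X).card : ℝ) ≤
            ((TS P 0 (X / 2)).card : ℝ) + ((TS P (X / 2) X).card : ℝ) := by
          exact_mod_cast TS_split P X
        have h4 : (((X / 2 : ℕ) : ℝ)) ^ θ ≤ ((2 : ℝ) ^ θ₀)⁻¹ * (X : ℝ) ^ θ := by
          have h5 : ((X / 2 : ℕ) : ℝ) ≤ (X : ℝ) / 2 := Nat.cast_div_le
          calc (((X / 2 : ℕ) : ℝ)) ^ θ ≤ ((X : ℝ) / 2) ^ θ :=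
                Real.rpow_le_rpow (Nat.cast_nonneg _) h5 hθ.le
            _ = ((2 : ℝ) ^ θ)⁻¹ * (X : ℝ) ^ θ := by
              rw [Real.div_rpow (Nat.cast_nonneg _) (by norm_num)]
              ring
            _ ≤ ((2 : ℝ) ^ θ₀)⁻¹ * (X : ℝ) ^ θ :=
              mul_le_mul_of_nonneg_right hinv (by positivity)
        calc ((TS P 0 X).card : ℝ) ≤ C * (((X / 2 : ℕ) : ℝ)) ^ θ + D * (X : ℝ) ^ θ := by
              linarith
          _ ≤ C * (((2 : ℝ) ^ θ₀)⁻¹ * (X : ℝ) ^ θ) + D * (X : ℝ) ^ θ := by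
            have := mul_le_mul_of_nonneg_left h4 hC0
            linarith
          _ = (C * ((2 : ℝ) ^ θ₀)⁻¹ + D) * (X : ℝ) ^ θ := by ring
          _ = C * (X : ℝ) ^ θ := by rw [hCeq]
  intro X
  refine le_trans ?_ (hmain X)
  have hsub : ((Finset.Icc 1 X ×ˢ Finset.Icc 1 X).filter (fun t : ℕ × ℕ =>
        t.1.Coprime t.2 ∧ t.1 + t.2 ≤ X ∧ P t)) ⊆ TS P 0 X := by
    intro t ht
    simp only [Finset.mem_filter, Finset.mem_product, Finset.mem_Icc] at ht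
    obtain ⟨⟨⟨h1, _⟩, h2, _⟩, h3, h4, h5⟩ := ht
    exact mem_TS.2 ⟨⟨h1, h2, h3, h5⟩, by omega, h4⟩
  exact_mod_cast Finset.card_le_card hsub

open scoped Classical in
/-- From a bound for every admissible box to the bound for the number of triples, for a symmetric
condition `P` on `(a, b)` which implies the condition `L` on the levels. -/
theorem final_of_box_gen (Q : ℕ) (hQ : 1 ≤ Q) (θ : ℝ) (hθ : 0 < θ)
    (P : ℕ × ℕ → Prop) (hP : ∀ t, P t → P t.swap) (L : (Fin 3 → ℕ → ℕ) → Prop)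
    (hL : Implies Q P L)
    (h : ∃ C : ℝ, ∀ (Z : ℕ) (k : Fin 3 → ℕ → ℕ), 2 ≤ Z →
      (∀ n, rc 1 full (k n) ≤ Q) → Q ≤ rc 1 full (k 1) + 20 → Q ≤ rc 1 full (k 2) + 20 →
      L k → ((Box Z Q k).card : ℝ) ≤ C * (Z : ℝ) ^ (θ * Q)) :
    ∃ C : ℝ, ∀ X : ℕ,
      (((Finset.Icc 1 X ×ˢ Finset.Icc 1 X).filter (fun t : ℕ × ℕ =>
        t.1.Coprime t.2 ∧ t.1 + t.2 ≤ X ∧ P t)).card : ℝ) ≤ C * (X : ℝ) ^ θ := by
  obtain ⟨C₀, h⟩ := h
  obtain ⟨C, hC⟩ := final_of_box_unif Q hQ θ θ hθ C₀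
  exact ⟨C, hC θ le_rfl le_rfl P L hP hL h⟩

/-- the sum of the levels of a number of small radical -/
lemma levels_small {Z Q : ℕ} {ρ : ℝ} (hZ : 2 ≤ Z) (hρ : 0 ≤ ρ) {c n : ℕ}
    (hn : n ≠ 0) (hc : c ≤ Z ^ Q) (hr : ((radn n : ℕ) : ℝ) ≤ (c : ℝ) ^ ρ) :
    ((∑ i ∈ full, Nat.log Z (coord n i) : ℕ) : ℝ) ≤ ρ * Q := by
  have hlow : Z ^ (∑ i ∈ full, Nat.log Z (coord n i)) ≤ radn n := radn_lower Z hZ _ hn
  have hZ1 : (1 : ℝ) < Z := by exact_mod_cast (by omega : 1 < Z)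
  have hup : ((radn n : ℕ) : ℝ) ≤ (Z : ℝ) ^ (ρ * Q) := by
    calc ((radn n : ℕ) : ℝ) ≤ (c : ℝ) ^ ρ := hr
      _ ≤ ((Z ^ Q : ℕ) : ℝ) ^ ρ :=
        Real.rpow_le_rpow (Nat.cast_nonneg _) (by exact_mod_cast hc) hρ
      _ = (Z : ℝ) ^ (ρ * Q) := by
        rw [Nat.cast_pow, ← Real.rpow_natCast, ← Real.rpow_mul (Nat.cast_nonneg _), mul_comm]
  have h5 : (Z : ℝ) ^ ((∑ i ∈ full, Nat.log Z (coord n i) : ℕ) : ℝ) ≤ (Z : ℝ) ^ (ρ * Q) := by
    rw [Real.rpow_natCast]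
    refine le_trans ?_ hup
    exact_mod_cast hlow
  exact (Real.rpow_le_rpow_left_iff hZ1).1 h5

lemma sum_full_congr {k k' : ℕ → ℕ} (h : ∀ i ∈ Finset.Icc 1 6, k i = k' i) :
    ∑ i ∈ full, k i = ∑ i ∈ full, k' i :=
  Finset.sum_congr rfl fun i hi => h i (by
    simp only [full, Finset.mem_Icc] at hi ⊢
    omega)

/-- the condition of `final_of_box_small` -/
def SmallCond (l ρ : ℝ) (t : ℕ × ℕ) : Prop :=
  ((∏ p ∈ (t.1 * t.2 * (t.1 + t.2)).primeFactors, p : ℕ) : ℝ) ≤ ((t.1 + t.2 : ℕ) : ℝ) ^ l ∧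
    ∃ n : Fin 3, ((radn (num t n) : ℕ) : ℝ) ≤ ((t.1 + t.2 : ℕ) : ℝ) ^ ρ

lemma SmallCond.swap {l ρ : ℝ} {t : ℕ × ℕ} (h : SmallCond l ρ t) : SmallCond l ρ t.swap := by
  obtain ⟨h1, n, h2⟩ := h
  have hswap : ∀ m : Fin 3, ∃ m' : Fin 3, num t.swap m' = num t m := by
    intro m
    fin_cases m
    · exact ⟨1, by simp [num]⟩
    · exact ⟨0, by simp [num]⟩
    · exact ⟨2, by simp [num, add_comm]⟩
  obtain ⟨m', hm'⟩ := hswap n
  unfold SmallCond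
  simp only [Prod.fst_swap, Prod.snd_swap]
  refine ⟨?_, m', ?_⟩
  · rw [mul_comm t.2 t.1, add_comm t.2 t.1]
    exact h1
  · rw [hm', add_comm t.2 t.1]
    exact h2

lemma implies_small {Q W : ℕ} (hQ : 1 ≤ Q) {l ρ : ℝ} (hl : 0 ≤ l) (hρ : 0 ≤ ρ)
    (hW : l * Q ≤ W) :
    Implies Q (SmallCond l ρ) (fun k => ∑ n, ∑ i ∈ full, k n i ≤ W ∧
      ∃ n, ((∑ i ∈ full, k n i : ℕ) : ℝ) ≤ ρ * Q) := by
  intro Z t k hZ h1 hle hco hc _ hPt hk
  obtain ⟨hr, n, hn⟩ := hPt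
  have hZ2 : 2 ≤ Z := by
    have : 2 ^ 1 ≤ 2 ^ (Q + 2) := Nat.pow_le_pow_right (by norm_num) (by omega)
    omega
  refine ⟨?_, n, ?_⟩
  · have h8 : ∑ n, ∑ i ∈ full, k n i =
        ∑ n, ∑ i ∈ full, Nat.log Z (coord (num t n) i) :=
      Finset.sum_congr rfl fun n _ => sum_full_congr (hk n)
    rw [h8]
    exact levels_le hZ2 hl hW (l := l) ⟨h1, by omega, hco, hr⟩ hc
  · rw [sum_full_congr (hk n)]
    refine levels_small hZ2 hρ ?_ hc hn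
    have : ∀ m : Fin 3, num t m ≠ 0 := by
      intro m
      fin_cases m <;> simp [num] <;> omega
    exact this n

/-- From a bound for every admissible box to the bound for the number of triples one of whose
entries has radical at most `c ^ ρ`, uniformly in `ρ`. -/
theorem final_of_box_small (Q W R : ℕ) (hQ : 100 ≤ Q) (θ l c : ℝ) (hθ : 0 < θ) (hl : 0 ≤ l)
    (hc : 0 ≤ c) (hW : l * Q ≤ W)
    (h : ∃ C : ℝ, ∀ (Z : ℕ) (k : Fin 3 → ℕ → ℕ), 2 ≤ Z →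
      (∀ n, rc 1 full (k n) ≤ Q) → Q ≤ rc 1 full (k 1) + 20 → Q ≤ rc 1 full (k 2) + 20 →
      ∑ n, ∑ i ∈ full, k n i ≤ W → ∀ n : Fin 3, ∑ i ∈ full, k n i ≤ R →
      ((Box Z Q k).card : ℝ) ≤ C * (Z : ℝ) ^ (θ * Q + c * ∑ i ∈ full, (k n i : ℝ))) :
    ∃ C : ℝ, ∀ ρ : ℝ, 0 ≤ ρ → ρ * Q ≤ R → ∀ X : ℕ,
      (((Finset.Icc 1 X ×ˢ Finset.Icc 1 X).filter (fun t : ℕ × ℕ =>
        t.1.Coprime t.2 ∧ t.1 + t.2 ≤ X ∧
          ((∏ p ∈ (t.1 * t.2 * (t.1 + t.2)).primeFactors, p : ℕ) : ℝ) ≤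
            ((t.1 + t.2 : ℕ) : ℝ) ^ l ∧
          ∃ n : Fin 3, ((radn (num t n) : ℕ) : ℝ) ≤
            ((t.1 + t.2 : ℕ) : ℝ) ^ ρ)).card : ℝ) ≤ C * (X : ℝ) ^ (θ + c * ρ) := by
  classical
  obtain ⟨C₀, hC₀⟩ := h
  obtain ⟨C, hC⟩ := final_of_box_unif Q (by omega) θ (θ + c * (R / Q)) hθ |C₀|
  have hQ0 : (0 : ℝ) < Q := by
    exact_mod_cast (by omega : 0 < Q)
  refine ⟨C, fun ρ hρ hR X => ?_⟩
  have key := hC (θ + c * ρ) (by nlinarith) (by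
      have h1 : ρ ≤ (R : ℝ) / Q := (le_div_iff₀ hQ0).2 hR
      have := mul_le_mul_of_nonneg_left h1 hc
      linarith) (SmallCond l ρ) _ (fun t => SmallCond.swap) (implies_small (by omega) hl hρ hW)
    (by
      rintro Z k hZ h1 h2 h3 ⟨h4, n, h5⟩
      have h6 : ∑ i ∈ full, k n i ≤ R := by
        have h7 := h5.trans hR
        exact_mod_cast h7
      have h8 := hC₀ Z k hZ h1 h2 h3 h4 n h6
      have hZ1 : (1 : ℝ) ≤ Z := by exact_mod_cast (by omega : 1 ≤ Z)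
      have h9 : (Z : ℝ) ^ (θ * Q + c * ∑ i ∈ full, (k n i : ℝ)) ≤
          (Z : ℝ) ^ ((θ + c * ρ) * Q) := by
        refine Real.rpow_le_rpow_of_exponent_le hZ1 ?_
        have h10 : ∑ i ∈ full, (k n i : ℝ) ≤ ρ * Q := by
          exact_mod_cast h5
        have := mul_le_mul_of_nonneg_left h10 hc
        linarith
      calc ((Box Z Q k).card : ℝ) ≤ C₀ * (Z : ℝ) ^ (θ * Q + c * ∑ i ∈ full, (k n i : ℝ)) := h8
        _ ≤ |C₀| * (Z : ℝ) ^ (θ * Q + c * ∑ i ∈ full, (k n i : ℝ)) :=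
          mul_le_mul_of_nonneg_right (le_abs_self _) (by positivity)
        _ ≤ |C₀| * (Z : ℝ) ^ ((θ + c * ρ) * Q) :=
          mul_le_mul_of_nonneg_left h9 (abs_nonneg _)) X
  convert key using 3
  ext t
  simp only [Finset.mem_filter, SmallCond]

end Pool.Agent.Helper11.ABCSmall
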